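import Pool.Agent.N142.FD.Final

set_option autoImplicit false
open scoped Pointwise

universe u

namespace Pool.Agent.Results.MP_dd2a7c_co.FiniteRangeOfDilates

/-- Polynomial Freiman-Ruzsa theorem in every abelian group, with absolute exponents, for sets
whose sums of dilates are small in a polynomial range of dilates.

Let `Γ` be any abelian group, `K ≥ 1` and `A ⊆ Γ` finite and nonempty with `|A + n A| ≤ K |A|` for
the natural numbers `1 ≤ n ≤ (2 K) ^ (10 ^ 10)` only, where `n A = {n a : a ∈ A}`. Then `A` is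
covered by at most `(2 K) ^ (10 ^ 6)` cosets of a finite subgroup of order at most
`(2 K) ^ (2 * 10 ^ 9) |A|`, and by at most `8 (2 K) ^ (3 * 10 ^ 9)` translates of a centred convex
coset progression of dimension `1` and volume at most `|A|`. -/
theorem result (Γ : Type u) [AddCommGroup Γ] [DecidableEq Γ] (K : ℝ) (hK : 1 ≤ K) (A : Finset Γ)
    (hA : A.Nonempty)
    (hdil : ∀ n : ℕ, 1 ≤ n → (n : ℝ) ≤ (2 * K) ^ (10 ^ 10) →
      ((A + A.image (fun a => n • a)).card : ℝ) ≤ K * (A.card : ℝ)) :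
    (∃ (H : AddSubgroup Γ) (T : Finset Γ), Finite H ∧
      (Nat.card H : ℝ) ≤ (2 * K) ^ (2 * 10 ^ 9) * A.card ∧
      (T.card : ℝ) ≤ (2 * K) ^ (10 ^ 6) ∧ ∀ a ∈ A, ∃ t ∈ T, a - t ∈ H) ∧
    (∃ (B : Set (Fin 1 → ℝ)) (ψ : (Fin 1 → ℤ) →+ Γ) (H : AddSubgroup Γ) (T : Finset Γ),
      Convex ℝ B ∧ IsCompact B ∧ (interior B).Nonempty ∧ (∀ x ∈ B, -x ∈ B) ∧
      Finite H ∧
      {x : Fin 1 → ℤ | (fun i => (x i : ℝ)) ∈ B}.ncard * Nat.card H ≤ A.card ∧
      (T.card : ℝ) ≤ 8 * (2 * K) ^ (3 * 10 ^ 9) ∧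
      ∀ a ∈ A, ∃ t ∈ T, ∃ x : Fin 1 → ℤ, (fun i => (x i : ℝ)) ∈ B ∧
        ∃ h ∈ H, a = t + ψ x + h) := by
  rename_i d
  have hd : d = (fun a b => Classical.propDecidable (a = b)) := Subsingleton.elim _ _
  subst hd
  exact Pool.Agent.N142.FD.partI A hA K hK (10 ^ 10) (by norm_num) hdil (10 ^ 6) (2 * 10 ^ 9)
    (3 * 10 ^ 9) (by norm_num) (by norm_num) (by norm_num)

end Pool.Agent.Results.MP_dd2a7c_co.FiniteRangeOfDilates
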