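import Pool.Agent.N142.CD.FIN
import Pool.Agent.N142.CD.MOM
import Pool.Agent.N142.CD.CS
import Pool.Agent.N142.CD.AP
import Pool.Agent.N142.CD.FOU
import Pool.Agent.N142.CD.CHANG

/-!
# Q1 for sets of small doubling

Let `A ⊆ ℤ/N` have density `α ≤ 1/2` and `|A + A| ≤ K |A|`, `x = log (1/α)`, `L = log (2K)`. Then `2A - 2A` contains a
Bohr set with at most `C (x + L⁴) (1 + L / log (2 + x))` frequencies and radius at least `1 / (C x)`, with an absolute
constant `C`. In particular the conclusion of Q1 holds, with constants depending only on `D`, for all the sets of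
density `α` with `|A + A| ≤ (log (1/α))^D |A|`, and more generally for all the sets `A` that contain a set `B` of
density at least `α^D` with `|B + B| ≤ (2 + log (1/α))^D |B|`.

The proof: the Croot-Sisask argument for the set of popular almost-periods `T` of the convolution of `A`, `A` and
`A + A` (`N142.CD.CS`, `AP`), the Fourier transform of the `l`-fold convolution of `T - T`, `l = O(L)` (`FOU`), Chang's
theorem for the spectrum of `T` at the level `1/2` (`CHANG`), which costs `O(log (N/|T|)) = O(x + L⁴)` frequencies `λ`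
and asks for a radius `1 / (C K (x + L⁴))`; and the exchange of this radius for a radius `1 / (4R)`, `R = O(x)`, with
the frequencies `R^i λ` (`RAD`).
-/

set_option autoImplicit false

namespace Pool.Agent.N142.Shelf.SmallDoubling

open Pool.Agent.N142
open scoped Pointwise

/-- The Bohr set `B(Γ, ε) = {x ∈ ℤ/N : ‖γ x / N‖ ≤ ε for all γ ∈ Γ}`; the norm is the distance to the nearest
integer. -/
def bohr {N : ℕ} (Γ : Finset (ZMod N)) (ε : ℝ) : Set (ZMod N) :=
  {x | ∀ γ ∈ Γ, |((γ * x).val : ℝ) / (N : ℝ) - ((round (((γ * x).val : ℝ) / (N : ℝ)) : ℤ) : ℝ)| ≤ ε}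

/-- The set `2A - 2A`. -/
def twoAMinusTwoA {N : ℕ} (A : Finset (ZMod N)) : Set (ZMod N) :=
  {x | ∃ a₁ ∈ A, ∃ a₂ ∈ A, ∃ a₃ ∈ A, ∃ a₄ ∈ A, x = a₁ + a₂ - a₃ - a₄}

/-- `log (1/α)` for the density `α = |A| / N` -/
noncomputable def logDens {N : ℕ} (A : Finset (ZMod N)) : ℝ := Real.log ((N : ℝ) / (A.card : ℝ))

theorem t_AP : CD.S_AP := CD.t_AP (CD.t_CS CD.t_MOM)

/-- **Q1 for sets of small doubling.** The first part is a bound for every doubling constant `K`, the second part is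
the conclusion of Q1 for sets with a large piece `B` (for example `B = A`) of doubling at most
`(2 + log (1/α)) ^ D`. -/
theorem result :
    (∃ C : ℝ, 1 ≤ C ∧ ∀ (N : ℕ), 0 < N → ∀ (A : Finset (ZMod N)) (K : ℝ), A.Nonempty →
      (A.card : ℝ) / (N : ℝ) ≤ 1 / 2 → 1 ≤ K → ((A + A).card : ℝ) ≤ K * A.card →
      ∃ (Γ : Finset (ZMod N)) (ε : ℝ), 0 < ε ∧
        (Γ.card : ℝ) ≤ C * (logDens A + Real.log (2 * K) ^ 4) *
          (1 + Real.log (2 * K) / Real.log (2 + logDens A)) ∧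
        1 / C / logDens A ≤ ε ∧ bohr Γ ε ⊆ twoAMinusTwoA A) ∧
    (∀ D : ℝ, 1 ≤ D → ∃ C : ℝ, 1 ≤ C ∧ ∀ (N : ℕ), 0 < N → ∀ (A B : Finset (ZMod N)), A.Nonempty →
      (A.card : ℝ) / (N : ℝ) ≤ 1 / 2 → B ⊆ A → B.Nonempty → logDens B ≤ D * logDens A →
      ((B + B).card : ℝ) ≤ (2 + logDens A) ^ D * B.card →
      ∃ (Γ : Finset (ZMod N)) (ε : ℝ), 0 < ε ∧ (Γ.card : ℝ) ≤ C * logDens A ∧
        1 / C / logDens A ≤ ε ∧ bohr Γ ε ⊆ twoAMinusTwoA A) := by
  have h1 := CD.fin_one t_AP CD.t_FOU CD.t_CHANG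
  refine ⟨?_, fun D hD => ?_⟩
  · obtain ⟨C, hC, h⟩ := h1
    refine ⟨C, hC, fun N hN A K hA hα hK hAA => ?_⟩
    have : NeZero N := ⟨hN.ne'⟩
    obtain ⟨Γ, ε, h2, h3, h4, h5⟩ := h N A K hA hα hK hAA
    exact ⟨Γ, ε, h2, h3, h4, fun y hy => h5 y fun g hg => hy g hg⟩
  · obtain ⟨C, hC, h⟩ := CD.fin_two h1 D hD
    refine ⟨C, hC, fun N hN A B hA hα hBA hB hd hBB => ?_⟩
    have : NeZero N := ⟨hN.ne'⟩
    obtain ⟨Γ, ε, h2, h3, h4, h5⟩ := h N A B hA hα hBA hB hd hBB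
    exact ⟨Γ, ε, h2, h3, h4, fun y hy => h5 y fun g hg => hy g hg⟩

end Pool.Agent.N142.Shelf.SmallDoubling
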